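import Mathlib

set_option autoImplicit false

/-!
Divisibility of the determinant of polynomial values at congruent points, Hensel polynomials,
and the determinant of the monomials x^i, x^i y at points of a nonsingular residue class of
the curve H(y) = G(x).
-/

namespace Pool.Agent.Helper30.Bin

open Polynomial Matrix

theorem pow_dvd_det_eval_fin (p : ℤ) : ∀ (s : ℕ) (Q : Fin s → ℤ[X]) (t : Fin s → ℤ),
    (∀ i j, p ∣ t i - t j) →
    p ^ (s * (s - 1) / 2) ∣ (Matrix.of fun i j => (Q j).eval (t i)).det := by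
  intro s
  induction s with
  | zero => intro Q t h; simp
  | succ s ih =>
    intro Q t h
    have hR : ∀ j, ∃ R : ℤ[X], ∀ x : ℤ,
        (Q j).eval x = (Q j).eval (t 0) + (x - t 0) * R.eval x := by
      intro j
      refine ⟨(Q j) /ₘ (X - C (t 0)), fun x => ?_⟩
      have h1 := congrArg (Polynomial.eval x) (Polynomial.modByMonic_add_div (Q j) (X - C (t 0)))
      rw [Polynomial.modByMonic_X_sub_C_eq_C_eval] at h1
      simp only [eval_add, eval_C, eval_mul, eval_sub, eval_X] at h1
      linarith
    choose R hR using hR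
    set M' : Matrix (Fin (s+1)) (Fin (s+1)) ℤ := Matrix.of fun i j =>
      if i = 0 then (Q j).eval (t 0) else (t i - t 0) * (R j).eval (t i) with hM'
    have hdet : (Matrix.of fun i j => (Q j).eval (t i)).det = M'.det := by
      apply Matrix.det_eq_of_forall_row_eq_smul_add_const
        (fun i => if i = 0 then 0 else 1) 0 (by simp)
      intro i j
      simp only [hM', Matrix.of_apply, if_true]
      by_cases hi : i = 0
      · subst hi; simp
      · simp only [hi, if_false]
        rw [hR j (t i)]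
        ring
    rw [hdet, Matrix.det_succ_row_zero]
    apply Finset.dvd_sum
    intro j _
    apply Dvd.dvd.mul_left
    have hminor : (M'.submatrix Fin.succ j.succAbove) =
        Matrix.of fun i j' => (t (Fin.succ i) - t 0) *
          (Matrix.of fun i j' => (R (j.succAbove j')).eval (t (Fin.succ i))) i j' := by
      ext i j'
      simp [hM', Matrix.submatrix_apply, Fin.succ_ne_zero]
    rw [hminor, Matrix.det_mul_column]
    have e : (s + 1) * (s + 1 - 1) / 2 = s + s * (s - 1) / 2 := by
      cases s with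
      | zero => rfl
      | succ s =>
        have : (s + 1 + 1) * (s + 1 + 1 - 1) = 2 * (s + 1) + (s + 1) * (s + 1 - 1) := by
          simp only [Nat.add_sub_cancel]; ring
        rw [this, Nat.mul_add_div (by norm_num)]
    rw [e, pow_add]
    apply mul_dvd_mul
    · have : p ^ s = ∏ _i : Fin s, p := by simp
      rw [this]
      exact Finset.prod_dvd_prod_of_dvd _ _ (fun i _ => h _ _)
    · exact ih (fun j' => R (j.succAbove j')) (fun i => t (Fin.succ i)) (fun i j => h _ _)

theorem pow_dvd_det_eval {ι : Type*} [Fintype ι] [DecidableEq ι] (p : ℤ) (s : ℕ)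
    (hs : Fintype.card ι = s) (Q : ι → ℤ[X]) (t : ι → ℤ) (h : ∀ i j, p ∣ t i - t j) :
    p ^ (s * (s - 1) / 2) ∣ (Matrix.of fun i j => (Q j).eval (t i)).det := by
  let e : Fin s ≃ ι := (Fintype.equivFinOfCardEq hs).symm
  rw [← Matrix.det_submatrix_equiv_self e]
  exact pow_dvd_det_eval_fin p s (fun j => Q (e j)) (fun i => t (e i)) (fun i j => h _ _)

theorem exists_hensel_poly (G H : ℤ[X]) (p y0 v : ℤ)
    (hv : p ∣ v * (derivative H).eval y0 - 1) (N : ℕ) :
    ∃ T : ℤ[X], ∀ x y : ℤ, p ∣ y - y0 → H.eval y = G.eval x →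
      p ^ (N + 1) ∣ y - T.eval x := by
  induction N with
  | zero =>
    refine ⟨C y0, fun x y h _ => ?_⟩
    simpa using h
  | succ N ih =>
    obtain ⟨T, hT⟩ := ih
    refine ⟨T - C v * (H.comp T - G), fun x y hy hxy => ?_⟩
    have h1 := hT x y hy hxy
    obtain ⟨c, hc⟩ := Polynomial.binomExpansion H (T.eval x) (y - T.eval x)
    have h2 : T.eval x + (y - T.eval x) = y := by ring
    rw [h2] at hc
    have hp1 : p ∣ y - T.eval x := dvd_trans (dvd_pow_self p (Nat.succ_ne_zero N)) h1
    have h3 : p ∣ (derivative H).eval (T.eval x) - (derivative H).eval y0 := by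
      have h4 : T.eval x - y0 ∣ (derivative H).eval (T.eval x) - (derivative H).eval y0 :=
        Polynomial.sub_dvd_eval_sub _ _ _
      have h5 : p ∣ T.eval x - y0 := by
        have : T.eval x - y0 = (y - y0) - (y - T.eval x) := by ring
        rw [this]
        exact dvd_sub hy hp1
      exact dvd_trans h5 h4
    have key : y - (T - C v * (H.comp T - G)).eval x =
        (y - T.eval x) * (1 - v * ((derivative H).eval (T.eval x) + c * (y - T.eval x))) := by
      simp only [eval_sub, eval_mul, eval_C, eval_comp]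
      rw [← hxy, hc]
      ring
    rw [key, pow_succ]
    apply mul_dvd_mul h1
    have e : 1 - v * ((derivative H).eval (T.eval x) + c * (y - T.eval x)) =
        -(v * (derivative H).eval y0 - 1)
          - v * ((derivative H).eval (T.eval x) - (derivative H).eval y0)
          - v * c * (y - T.eval x) := by ring
    rw [e]
    exact dvd_sub (dvd_sub ((dvd_neg).2 hv) (Dvd.dvd.mul_left h3 _)) (Dvd.dvd.mul_left hp1 _)

theorem dvd_det_sub_det {ι : Type*} [Fintype ι] [DecidableEq ι] (m : ℤ) (A B : Matrix ι ι ℤ)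
    (h : ∀ i j, m ∣ A i j - B i j) : m ∣ A.det - B.det := by
  have h1 : (Ideal.Quotient.mk (Ideal.span {m})) (A.det - B.det) = 0 := by
    rw [map_sub, RingHom.map_det, RingHom.map_det, sub_eq_zero]
    congr 1
    ext i j
    simp only [RingHom.mapMatrix_apply, Matrix.map_apply]
    rw [Ideal.Quotient.eq, Ideal.mem_span_singleton]
    exact h i j
  rwa [Ideal.Quotient.eq_zero_iff_mem, Ideal.mem_span_singleton] at h1

/-- The matrix of the monomials x^i (i < a), x^i y (i < b). -/
def monMat (a b : ℕ) (P : Fin a ⊕ Fin b → ℤ × ℤ) : Matrix (Fin a ⊕ Fin b) (Fin a ⊕ Fin b) ℤ :=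
  Matrix.of fun r c => Sum.elim (fun i : Fin a => (P r).1 ^ (i : ℕ))
    (fun i : Fin b => (P r).1 ^ (i : ℕ) * (P r).2) c

theorem pow_dvd_det_monMat (G H : ℤ[X]) (p x0 y0 v : ℤ)
    (hv : p ∣ v * (derivative H).eval y0 - 1) (a b : ℕ) (P : Fin a ⊕ Fin b → ℤ × ℤ)
    (hx : ∀ r, p ∣ (P r).1 - x0) (hy : ∀ r, p ∣ (P r).2 - y0)
    (hP : ∀ r, H.eval (P r).2 = G.eval (P r).1) :
    p ^ ((a + b) * (a + b - 1) / 2) ∣ (monMat a b P).det := by
  obtain ⟨T, hT⟩ := exists_hensel_poly G H p y0 v hv ((a + b) * (a + b - 1) / 2)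
  have h1 := pow_dvd_det_eval p (a + b) (by simp)
    (Sum.elim (fun i : Fin a => (X : ℤ[X]) ^ (i : ℕ)) (fun i : Fin b => (X : ℤ[X]) ^ (i : ℕ) * T))
    (fun r => (P r).1) (fun i j => by
      have : (P i).1 - (P j).1 = ((P i).1 - x0) - ((P j).1 - x0) := by ring
      rw [this]
      exact dvd_sub (hx i) (hx j))
  have h2 := dvd_det_sub_det (p ^ ((a + b) * (a + b - 1) / 2)) (monMat a b P)
    (Matrix.of fun i j => (Sum.elim (fun i : Fin a => (X : ℤ[X]) ^ (i : ℕ))
      (fun i : Fin b => (X : ℤ[X]) ^ (i : ℕ) * T) j).eval ((P i).1)) (by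
      intro i j
      rcases j with j | j
      · simp [monMat]
      · simp only [monMat, Matrix.of_apply, Sum.elim_inr, eval_mul, eval_pow, eval_X]
        rw [← mul_sub]
        apply Dvd.dvd.mul_left
        exact dvd_trans (pow_dvd_pow p (Nat.le_succ _)) (hT _ _ (hy i) (hP i)))
  have := dvd_add h2 h1
  simpa using this

end Pool.Agent.Helper30.Bin
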