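import Mathlib
import Pool.Agent.Helper30.Bin.Det

set_option autoImplicit false

/-!
If all the minors of the monomials x^i (i < a), x^i y (i < b) vanish on a set of points, then
some nonzero A(x) + B(x) y with deg A < a, deg B < b vanishes on it.
-/

namespace Pool.Agent.Helper30.Bin

open Polynomial Matrix

theorem exists_relation {S κ : Type*} [Fintype κ] [DecidableEq κ] (w : S → κ → ℚ)
    (h : ∀ f : κ → S, (Matrix.of fun i j => w (f i) j).det = 0) :
    ∃ c : κ → ℚ, c ≠ 0 ∧ ∀ x, ∑ j, w x j * c j = 0 := by
  classical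
  have hlt : Submodule.span ℚ (Set.range w) < ⊤ := by
    rw [lt_top_iff_ne_top]
    intro htop
    obtain ⟨f, hf, -, hli⟩ := Submodule.exists_fun_fin_finrank_span_eq ℚ (Set.range w)
    have hfr : Fintype.card κ = Module.finrank ℚ (Submodule.span ℚ (Set.range w)) := by
      rw [htop, finrank_top, Module.finrank_fintype_fun_eq_card]
    choose g hg using hf
    let e : κ ≃ Fin (Module.finrank ℚ (Submodule.span ℚ (Set.range w))) :=
      Fintype.equivFinOfCardEq hfr
    have h0 := h (fun i => g (e i))
    have hli2 : LinearIndependent ℚ (fun i => f (e i)) := hli.comp _ e.injective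
    have hM : (Matrix.of fun i j => w (g (e i)) j).row = fun i => f (e i) := by
      funext i
      rw [← hg (e i)]
      rfl
    have hu : IsUnit (Matrix.of fun i j => w (g (e i)) j) := by
      rw [← Matrix.linearIndependent_rows_iff_isUnit, hM]
      exact hli2
    rw [Matrix.isUnit_iff_isUnit_det, h0] at hu
    exact not_isUnit_zero hu
  obtain ⟨f, hf0, hf⟩ := Submodule.exists_le_ker_of_lt_top _ hlt
  refine ⟨fun j => f (fun i => if j = i then 1 else 0), ?_, ?_⟩
  · intro hc
    apply hf0
    apply LinearMap.ext
    intro x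
    rw [LinearMap.pi_apply_eq_sum_univ]
    simp only [LinearMap.zero_apply]
    apply Finset.sum_eq_zero
    intro j _
    have := congrFun hc j
    simp only [Pi.zero_apply] at this
    rw [this, smul_zero]
  · intro x
    have h1 : w x ∈ LinearMap.ker f := hf (Submodule.subset_span ⟨x, rfl⟩)
    rw [LinearMap.mem_ker, LinearMap.pi_apply_eq_sum_univ] at h1
    simpa using h1

theorem exists_polys {S : Type*} (a b : ℕ) (P : S → ℤ × ℤ)
    (h : ∀ f : Fin a ⊕ Fin b → S, (monMat a b (fun r => P (f r))).det = 0) :
    ∃ A B : ℚ[X], (A ≠ 0 ∨ B ≠ 0) ∧ A.degree < a ∧ B.degree < b ∧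
      ∀ x, A.eval ((P x).1 : ℚ) + B.eval ((P x).1 : ℚ) * ((P x).2 : ℚ) = 0 := by
  obtain ⟨c, hc0, hc⟩ := exists_relation
    (w := fun x => Sum.elim (fun i : Fin a => ((P x).1 : ℚ) ^ (i : ℕ))
      (fun i : Fin b => ((P x).1 : ℚ) ^ (i : ℕ) * ((P x).2 : ℚ))) (by
      intro f
      have h1 := congrArg (Int.castRingHom ℚ) (h f)
      rw [RingHom.map_det] at h1
      simp only [map_zero] at h1
      rw [← h1]
      congr 1
      ext r c
      rcases c with c | c <;> simp [monMat])
  refine ⟨∑ i : Fin a, C (c (Sum.inl i)) * X ^ (i : ℕ),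
    ∑ i : Fin b, C (c (Sum.inr i)) * X ^ (i : ℕ), ?_, degree_sum_fin_lt _, degree_sum_fin_lt _, ?_⟩
  · by_contra hcon
    push Not at hcon
    obtain ⟨hA, hB⟩ := hcon
    apply hc0
    funext j
    rcases j with j | j
    · have := congrArg (fun q => q.coeff (j : ℕ)) hA
      simp only [finsetSum_coeff, coeff_C_mul, coeff_X_pow, coeff_zero] at this
      rw [Finset.sum_eq_single j] at this
      · simpa using this
      · intro i _ hij
        have : ¬ ((j : ℕ) = (i : ℕ)) := fun h => hij (Fin.ext h.symm)
        simp [this]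
      · intro h; exact absurd (Finset.mem_univ _) h
    · have := congrArg (fun q => q.coeff (j : ℕ)) hB
      simp only [finsetSum_coeff, coeff_C_mul, coeff_X_pow, coeff_zero] at this
      rw [Finset.sum_eq_single j] at this
      · simpa using this
      · intro i _ hij
        have : ¬ ((j : ℕ) = (i : ℕ)) := fun h => hij (Fin.ext h.symm)
        simp [this]
      · intro h; exact absurd (Finset.mem_univ _) h
  · intro x
    have := hc x
    rw [Fintype.sum_sum_type] at this
    simp only [Sum.elim_inl, Sum.elim_inr] at this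
    rw [← this, eval_finsetSum, eval_finsetSum, Finset.sum_mul]
    congr 1
    · apply Finset.sum_congr rfl
      intro i _
      simp only [eval_mul, eval_C, eval_pow, eval_X]
      ring
    · apply Finset.sum_congr rfl
      intro i _
      simp only [eval_mul, eval_C, eval_pow, eval_X]
      ring

end Pool.Agent.Helper30.Bin
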