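import Mathlib

set_option autoImplicit false

/-!
The curve l! (x)_k = k! (y)_l with k > l ≥ 2 has no component A(x) + B(x) y = 0, and a
polynomial relation A(n) + B(n) m = 0 has few solutions on it.
-/

namespace Pool.Agent.Helper30.Bin

open Polynomial

/-- for 2 ≤ l < k there is no rational r and d with k = l d, l! = k! r^l. -/
theorem no_rat (k l d : ℕ) (hl : 2 ≤ l) (hlk : l < k) (hk : k = l * d) (r : ℚ) :
    (l.factorial : ℚ) ≠ k.factorial * r ^ l := by
  intro h
  have hd : 2 ≤ d := by
    by_contra hd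
    have : d = 0 ∨ d = 1 := by omega
    rcases this with rfl | rfl <;> omega
  have hk2 : 2 * l ≤ k := by rw [hk]; nlinarith
  obtain ⟨p, hp, hp1, hp2⟩ := Nat.exists_prime_lt_and_le_two_mul (k / 2) (by omega)
  have : Fact p.Prime := ⟨hp⟩
  have hpk : p ≤ k := by omega
  have hkp : k < 2 * p := by omega
  have hlp : l < p := by omega
  have hdiv : k / p = 1 := by
    rw [Nat.div_eq_iff hp.pos]
    omega
  have v1 : padicValNat p k.factorial = 1 := by
    rw [← padicValNat_mul_div_factorial, hdiv, padicValNat_factorial_mul]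
    simp
  have v2 : padicValNat p l.factorial = 0 := by
    apply padicValNat.eq_zero_of_not_dvd
    rw [hp.dvd_factorial]
    omega
  have hr : r ≠ 0 := by
    rintro rfl
    rw [zero_pow (by omega), mul_zero] at h
    exact (Nat.cast_ne_zero.2 (Nat.factorial_ne_zero l)) h
  have hv := congrArg (padicValRat p) h
  rw [padicValRat.mul (Nat.cast_ne_zero.2 (Nat.factorial_ne_zero k)) (pow_ne_zero _ hr),
    padicValRat.pow, padicValRat.of_nat, padicValRat.of_nat, v1, v2] at hv
  have h2 : (l : ℤ) ∣ 1 := ⟨-padicValRat p r, by push_cast at hv; linarith⟩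
  have h3 := Int.eq_one_of_dvd_one (by positivity) h2
  omega

/-- the polynomial l! B^l (x)_k - k! ∏_{j<l} (-A - j B). -/
noncomputable def resPoly (k l : ℕ) (A B : ℚ[X]) : ℚ[X] :=
  C (l.factorial : ℚ) * B ^ l * descPochhammer ℚ k -
    C (k.factorial : ℚ) * ∏ j ∈ Finset.range l, (-A - C (j : ℚ) * B)

theorem resPoly_ne_zero (k l : ℕ) (hl : 2 ≤ l) (hlk : l < k) (A B : ℚ[X])
    (h : A ≠ 0 ∨ B ≠ 0) : resPoly k l A B ≠ 0 := by
  intro h0
  rw [resPoly, sub_eq_zero] at h0
  have hk0 : (k.factorial : ℚ) ≠ 0 := Nat.cast_ne_zero.2 (Nat.factorial_ne_zero k)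
  have hl0 : (l.factorial : ℚ) ≠ 0 := Nat.cast_ne_zero.2 (Nat.factorial_ne_zero l)
  by_cases hB : B = 0
  · subst hB
    rw [zero_pow (by omega), mul_zero, zero_mul] at h0
    have hA : A ≠ 0 := by tauto
    have h1 : C (k.factorial : ℚ) * ∏ j ∈ Finset.range l, (-A - C (j : ℚ) * 0) ≠ 0 := by
      apply mul_ne_zero (C_ne_zero.2 hk0)
      rw [Finset.prod_ne_zero_iff]
      intro j _
      simpa using hA
    exact h1 h0.symm
  · -- reduce to coprime A, B
    have hD : GCDMonoid.gcd A B ≠ 0 := gcd_ne_zero_of_right hB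
    set D := GCDMonoid.gcd A B with hDdef
    have hcop : IsCoprime (A / D) (B / D) := isCoprime_div_gcd_div_gcd hB
    have hA' : A = D * (A / D) := (EuclideanDomain.mul_div_cancel' hD (gcd_dvd_left _ _)).symm
    have hB' : B = D * (B / D) := (EuclideanDomain.mul_div_cancel' hD (gcd_dvd_right _ _)).symm
    set A1 := A / D
    set B1 := B / D
    have h1 : C (l.factorial : ℚ) * B1 ^ l * descPochhammer ℚ k =
        C (k.factorial : ℚ) * ∏ j ∈ Finset.range l, (-A1 - C (j : ℚ) * B1) := by
      have e1 : C (l.factorial : ℚ) * B ^ l * descPochhammer ℚ k =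
          D ^ l * (C (l.factorial : ℚ) * B1 ^ l * descPochhammer ℚ k) := by
        conv_lhs => rw [hB', mul_pow]
        ring
      have e2 : C (k.factorial : ℚ) * ∏ j ∈ Finset.range l, (-A - C (j : ℚ) * B) =
          D ^ l * (C (k.factorial : ℚ) * ∏ j ∈ Finset.range l, (-A1 - C (j : ℚ) * B1)) := by
        have : ∏ j ∈ Finset.range l, (-A - C (j : ℚ) * B) =
            ∏ j ∈ Finset.range l, (D * (-A1 - C (j : ℚ) * B1)) := by
          apply Finset.prod_congr rfl
          intro j _
          conv_lhs => rw [hA', hB']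
          ring
        rw [this, Finset.prod_mul_distrib, Finset.prod_const, Finset.card_range]
        ring
      rw [e1, e2] at h0
      exact mul_left_cancel₀ (pow_ne_zero _ hD) h0
    have hcop2 : IsCoprime B1 (C (k.factorial : ℚ) *
        ∏ j ∈ Finset.range l, (-A1 - C (j : ℚ) * B1)) := by
      rw [isCoprime_mul_unit_left_right (isUnit_C.2 (isUnit_iff_ne_zero.2 hk0))]
      apply IsCoprime.prod_right
      intro j _
      have h2 : IsCoprime B1 (-A1 + B1 * (-C (j : ℚ))) :=
        IsCoprime.add_mul_left_right ((IsCoprime.neg_right hcop.symm)) _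
      have e : -A1 - C (j : ℚ) * B1 = -A1 + B1 * (-C (j : ℚ)) := by ring
      rw [e]
      exact h2
    have hdvd : B1 ∣ C (k.factorial : ℚ) * ∏ j ∈ Finset.range l, (-A1 - C (j : ℚ) * B1) := by
      rw [← h1]
      apply Dvd.dvd.mul_right
      apply Dvd.dvd.mul_left
      exact dvd_pow_self _ (by omega)
    have hunit : IsUnit B1 := hcop2.isUnit_of_dvd' dvd_rfl hdvd
    obtain ⟨β, hβu, hβ⟩ := Polynomial.isUnit_iff.1 hunit
    have hβ0 : β ≠ 0 := hβu.ne_zero
    set F : ℚ[X] := -(C β⁻¹ * A1) with hF
    have h3 : C (l.factorial : ℚ) * descPochhammer ℚ k =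
        C (k.factorial : ℚ) * ∏ j ∈ Finset.range l, (F - C (j : ℚ)) := by
      have e2 : ∏ j ∈ Finset.range l, (-A1 - C (j : ℚ) * B1) =
          C β ^ l * ∏ j ∈ Finset.range l, (F - C (j : ℚ)) := by
        have : ∏ j ∈ Finset.range l, (-A1 - C (j : ℚ) * B1) =
            ∏ j ∈ Finset.range l, (C β * (F - C (j : ℚ))) := by
          apply Finset.prod_congr rfl
          intro j _
          rw [← hβ, hF]
          have : C β * C β⁻¹ = (1 : ℚ[X]) := by rw [← C_mul, mul_inv_cancel₀ hβ0, C_1]
          calc -A1 - C (j : ℚ) * C β = -(1 * A1) - C β * C (j : ℚ) := by ring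
            _ = -(C β * C β⁻¹ * A1) - C β * C (j : ℚ) := by rw [this]
            _ = C β * (-(C β⁻¹ * A1) - C (j : ℚ)) := by ring
        rw [this, Finset.prod_mul_distrib, Finset.prod_const, Finset.card_range]
      rw [e2, ← hβ] at h1
      apply mul_left_cancel₀ (pow_ne_zero l (C_ne_zero.2 hβ0))
      calc C β ^ l * (C (l.factorial : ℚ) * descPochhammer ℚ k)
          = C (l.factorial : ℚ) * C β ^ l * descPochhammer ℚ k := by ring
        _ = _ := h1
        _ = _ := by ring
    -- leading coefficients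
    have hdegs : ∀ j : ℕ, (F - C (j : ℚ)).natDegree = F.natDegree := fun j => natDegree_sub_C
    have hne : ∏ j ∈ Finset.range l, (F - C (j : ℚ)) ≠ 0 := by
      intro hz
      rw [hz, mul_zero] at h3
      have := (mul_ne_zero (C_ne_zero.2 hl0) (monic_descPochhammer ℚ k).ne_zero)
      exact this h3
    have hne' : ∀ j ∈ Finset.range l, F - C (j : ℚ) ≠ 0 := Finset.prod_ne_zero_iff.1 hne
    have hdeg : k = l * F.natDegree := by
      have := congrArg Polynomial.natDegree h3
      rw [natDegree_C_mul hl0, natDegree_C_mul hk0, descPochhammer_natDegree,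
        natDegree_prod _ _ hne', Finset.sum_congr rfl (fun j _ => hdegs j), Finset.sum_const,
        Finset.card_range] at this
      simpa using this
    have hFpos : 0 < F.natDegree := by
      rcases Nat.eq_zero_or_pos F.natDegree with h | h
      · rw [h] at hdeg; omega
      · exact h
    have hlc : (l.factorial : ℚ) = k.factorial * F.leadingCoeff ^ l := by
      have := congrArg Polynomial.leadingCoeff h3
      rw [leadingCoeff_mul, leadingCoeff_mul, leadingCoeff_C, leadingCoeff_C,
        (monic_descPochhammer ℚ k).leadingCoeff, mul_one, leadingCoeff_prod] at this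
      rw [this]
      congr 1
      rw [Finset.prod_congr rfl (g := fun _ => F.leadingCoeff), Finset.prod_const,
        Finset.card_range]
      intro j _
      apply leadingCoeff_sub_of_degree_lt
      apply lt_of_le_of_lt degree_C_le
      exact natDegree_pos_iff_degree_pos.1 hFpos
    exact no_rat k l F.natDegree hl hlk hdeg F.leadingCoeff hlc

theorem resPoly_natDegree_le (k l q L : ℕ) (hlq : l * q ≤ 2 * k) (hL : 1 ≤ L)
    (A B : ℚ[X]) (hA : A.natDegree ≤ L * q) (hB : B.natDegree ≤ (L - 1) * q) :
    (resPoly k l A B).natDegree ≤ 2 * L * k := by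
  unfold resPoly
  refine le_trans (natDegree_sub_le _ _) (max_le ?_ ?_)
  · refine le_trans natDegree_mul_le ?_
    rw [descPochhammer_natDegree]
    have h1 : (C (l.factorial : ℚ) * B ^ l).natDegree ≤ l * ((L - 1) * q) := by
      refine le_trans (natDegree_C_mul_le _ _) ?_
      refine le_trans natDegree_pow_le ?_
      exact Nat.mul_le_mul_left _ hB
    have h2 : l * ((L - 1) * q) = (L - 1) * (l * q) := by ring
    have h3 : (L - 1) * (l * q) ≤ (L - 1) * (2 * k) := Nat.mul_le_mul_left _ hlq
    obtain ⟨M, rfl⟩ : ∃ M, L = M + 1 := ⟨L - 1, by omega⟩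
    simp only [Nat.add_sub_cancel] at *
    nlinarith
  · refine le_trans (natDegree_C_mul_le _ _) ?_
    refine le_trans (natDegree_prod_le _ _) ?_
    have h1 : ∀ j ∈ Finset.range l, (-A - C (j : ℚ) * B).natDegree ≤ L * q := by
      intro j _
      refine le_trans (natDegree_sub_le _ _) (max_le ?_ ?_)
      · rw [natDegree_neg]; exact hA
      · refine le_trans (natDegree_C_mul_le _ _) (le_trans hB ?_)
        exact Nat.mul_le_mul_right _ (Nat.sub_le _ _)
    refine le_trans (Finset.sum_le_sum h1) ?_
    rw [Finset.sum_const, Finset.card_range, smul_eq_mul]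
    calc l * (L * q) = L * (l * q) := by ring
      _ ≤ L * (2 * k) := Nat.mul_le_mul_left _ hlq
      _ = 2 * L * k := by ring

theorem resPoly_eval (k l : ℕ) (A B : ℚ[X]) (x y : ℚ) (h : A.eval x + B.eval x * y = 0)
    (hxy : (l.factorial : ℚ) * (descPochhammer ℚ k).eval x =
      (k.factorial : ℚ) * (descPochhammer ℚ l).eval y) :
    (resPoly k l A B).eval x = 0 := by
  unfold resPoly
  have h1 : (∏ j ∈ Finset.range l, (-A - C (j : ℚ) * B)).eval x =
      B.eval x ^ l * (descPochhammer ℚ l).eval y := by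
    rw [eval_prod, descPochhammer_eval_eq_prod_range]
    have : B.eval x ^ l = ∏ _j ∈ Finset.range l, B.eval x := by simp
    rw [this, ← Finset.prod_mul_distrib]
    apply Finset.prod_congr rfl
    intro j _
    simp only [eval_sub, eval_neg, eval_mul, eval_C]
    linear_combination (-1 : ℚ) * h
  simp only [eval_sub, eval_mul, eval_C, eval_pow]
  rw [h1]
  linear_combination (B.eval x ^ l) * hxy

end Pool.Agent.Helper30.Bin
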