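import Mathlib
import Pool.Agent.Helper30.Bin.Det

set_option autoImplicit false

/-!
Size of the determinant of the monomials x^i, x^i y.
-/

namespace Pool.Agent.Helper30.Bin

open Matrix

theorem abs_det_le {ι : Type*} [Fintype ι] [DecidableEq ι] (A : Matrix ι ι ℤ) (w : ι → ℤ)
    (h : ∀ i j, |A i j| ≤ w j) : |A.det| ≤ ((Fintype.card ι).factorial : ℤ) * ∏ j, w j := by
  rw [Matrix.det_apply']
  refine le_trans (Finset.abs_sum_le_sum_abs _ _) ?_
  have h1 : ∀ σ : Equiv.Perm ι, |((Equiv.Perm.sign σ : ℤ) : ℤ) * ∏ i, A (σ i) i| ≤ ∏ j, w j := by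
    intro σ
    rw [abs_mul, Finset.abs_prod]
    have : |((Equiv.Perm.sign σ : ℤ) : ℤ)| = 1 := by
      rcases Int.units_eq_one_or (Equiv.Perm.sign σ) with h | h <;> simp [h]
    rw [this, one_mul]
    exact Finset.prod_le_prod (fun i _ => abs_nonneg _) (fun i _ => h _ _)
  refine le_trans (Finset.sum_le_sum (fun σ _ => h1 σ)) ?_
  rw [Finset.sum_const, Finset.card_univ, Fintype.card_perm]
  simp

theorem abs_det_monMat_le (a b : ℕ) (X Y : ℤ) (P : Fin a ⊕ Fin b → ℤ × ℤ)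
    (hx0 : ∀ r, 0 ≤ (P r).1) (hx : ∀ r, (P r).1 ≤ X) (hy0 : ∀ r, 0 ≤ (P r).2)
    (hy : ∀ r, (P r).2 ≤ Y) :
    |(monMat a b P).det| ≤
      ((a + b).factorial : ℤ) * (X ^ (a * (a - 1) / 2 + b * (b - 1) / 2) * Y ^ b) := by
  have h1 := abs_det_le (monMat a b P)
    (Sum.elim (fun i : Fin a => X ^ (i : ℕ)) (fun i : Fin b => X ^ (i : ℕ) * Y)) (by
      intro i j
      rcases j with j | j
      · simp only [monMat, Matrix.of_apply, Sum.elim_inl]
        rw [abs_of_nonneg (pow_nonneg (hx0 i) _)]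
        exact pow_le_pow_left₀ (hx0 i) (hx i) _
      · simp only [monMat, Matrix.of_apply, Sum.elim_inr]
        rw [abs_of_nonneg (mul_nonneg (pow_nonneg (hx0 i) _) (hy0 i))]
        exact mul_le_mul (pow_le_pow_left₀ (hx0 i) (hx i) _) (hy i) (hy0 i)
          (pow_nonneg (le_trans (hx0 i) (hx i)) _))
  refine le_trans h1 (le_of_eq ?_)
  rw [Fintype.prod_sum_type]
  simp only [Sum.elim_inl, Sum.elim_inr, Fintype.card_sum, Fintype.card_fin]
  rw [Finset.prod_mul_distrib, Finset.prod_pow_eq_pow_sum, Finset.prod_pow_eq_pow_sum,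
    Fin.sum_univ_eq_sum_range (fun i => i) a, Fin.sum_univ_eq_sum_range (fun i => i) b,
    Finset.sum_range_id, Finset.sum_range_id, Finset.prod_const, Finset.card_univ,
    Fintype.card_fin, pow_add]
  ring

/-- the exponent inequality -/
theorem exp_ineq (L q : ℕ) (hL : 2 ≤ L) (hq : 2 ≤ q) :
    2 * L * ((2 * L - 1) * q) + 2 * L * ((L * q) * (L * q - 1) + ((L - 1) * q) * ((L - 1) * q - 1)
        + 2 * (q * ((L - 1) * q)))
      ≤ (L + 2) * (((2 * L - 1) * q) * ((2 * L - 1) * q - 1)) := by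
  obtain ⟨m, rfl⟩ : ∃ m, L = m + 2 := ⟨L - 2, by omega⟩
  obtain ⟨r, rfl⟩ : ∃ r, q = r + 2 := ⟨q - 2, by omega⟩
  have e1 : m + 2 - 1 = m + 1 := by omega
  have e2 : 2 * (m + 2) - 1 = 2 * m + 3 := by omega
  rw [e1, e2]
  have f1 : (m + 2) * (r + 2) - 1 = m * r + 2 * m + 2 * r + 3 := by
    have : (m + 2) * (r + 2) = m * r + 2 * m + 2 * r + 4 := by ring
    omega
  have f2 : (m + 1) * (r + 2) - 1 = m * r + 2 * m + r + 1 := by
    have : (m + 1) * (r + 2) = m * r + 2 * m + r + 2 := by ring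
    omega
  have f3 : (2 * m + 3) * (r + 2) - 1 = 2 * (m * r) + 4 * m + 3 * r + 5 := by
    have : (2 * m + 3) * (r + 2) = 2 * (m * r) + 4 * m + 3 * r + 6 := by ring
    omega
  rw [f1, f2, f3]
  ring_nf
  nlinarith [Nat.zero_le (m * r), Nat.zero_le (m^2 * r), Nat.zero_le (m * r^2),
    Nat.zero_le (m^2*r^2), Nat.zero_le (m^3 * r), Nat.zero_le (m^3*r^2), Nat.zero_le (m^2),
    Nat.zero_le (r^2), Nat.zero_le m, Nat.zero_le r, Nat.zero_le (m^3)]

theorem size_ineq (L q X p : ℕ) (hL : 2 ≤ L) (hq : 2 ≤ q) (hX : 1 ≤ X)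
    (hsX : (2 * ((2 * L - 1) * q)) ^ 2 ≤ X) (hp : X ^ (L + 2) < p ^ (2 * L)) :
    ((L * q + (L - 1) * q).factorial) *
      (X ^ ((L * q) * (L * q - 1) / 2 + ((L - 1) * q) * ((L - 1) * q - 1) / 2) *
        (2 * X ^ q) ^ ((L - 1) * q)) <
      p ^ ((L * q + (L - 1) * q) * (L * q + (L - 1) * q - 1) / 2) := by
  have hs : L * q + (L - 1) * q = (2 * L - 1) * q := by
    rw [← add_mul]; congr 1; omega
  rw [hs]
  set s := (2 * L - 1) * q with hsdef
  set a := L * q with ha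
  set b := (L - 1) * q with hb
  have hbs : b ≤ s := by
    rw [hb, hsdef]
    exact Nat.mul_le_mul_right q (by omega)
  have hs2 : 2 ≤ s := by
    rw [hsdef]
    calc 2 ≤ q := hq
      _ = 1 * q := (one_mul q).symm
      _ ≤ (2 * L - 1) * q := Nat.mul_le_mul_right q (by omega)
  -- raise to the power 4 L
  apply lt_of_pow_lt_pow_left₀ (4 * L) (Nat.zero_le _)
  have ea : 2 * (a * (a - 1) / 2) = a * (a - 1) := by
    have := Nat.even_mul_pred_self a
    exact Nat.mul_div_cancel' this.two_dvd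
  have eb : 2 * (b * (b - 1) / 2) = b * (b - 1) := by
    have := Nat.even_mul_pred_self b
    exact Nat.mul_div_cancel' this.two_dvd
  have es : 2 * (s * (s - 1) / 2) = s * (s - 1) := by
    have := Nat.even_mul_pred_self s
    exact Nat.mul_div_cancel' this.two_dvd
  have h1 : s.factorial * 2 ^ b ≤ (2 * s) ^ s := by
    calc s.factorial * 2 ^ b ≤ s ^ s * 2 ^ s :=
          Nat.mul_le_mul (Nat.factorial_le_pow s) (Nat.pow_le_pow_right (by norm_num) hbs)
      _ = (2 * s) ^ s := by rw [mul_pow]; ring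
  have h2 : (s.factorial * 2 ^ b) ^ (4 * L) ≤ X ^ (2 * L * s) := by
    calc (s.factorial * 2 ^ b) ^ (4 * L) ≤ ((2 * s) ^ s) ^ (4 * L) := Nat.pow_le_pow_left h1 _
      _ = ((2 * s) ^ 2) ^ (2 * L * s) := by
          rw [← pow_mul, ← pow_mul]; congr 1; ring
      _ ≤ X ^ (2 * L * s) := Nat.pow_le_pow_left hsX _
  have h3 : (s.factorial * (X ^ (a * (a - 1) / 2 + b * (b - 1) / 2) * (2 * X ^ q) ^ b)) ^ (4 * L)
      = (s.factorial * 2 ^ b) ^ (4 * L) *
        X ^ (2 * L * (a * (a - 1) + b * (b - 1) + 2 * (q * b))) := by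
    have : s.factorial * (X ^ (a * (a - 1) / 2 + b * (b - 1) / 2) * (2 * X ^ q) ^ b)
      = (s.factorial * 2 ^ b) * X ^ (a * (a - 1) / 2 + b * (b - 1) / 2 + q * b) := by
      rw [mul_pow, ← pow_mul, pow_add X (a * (a - 1) / 2 + b * (b - 1) / 2) (q * b)]
      ring
    rw [this, mul_pow, ← pow_mul]
    congr 2
    calc (a * (a - 1) / 2 + b * (b - 1) / 2 + q * b) * (4 * L)
        = 2 * L * (2 * (a * (a - 1) / 2) + 2 * (b * (b - 1) / 2) + 2 * (q * b)) := by ring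
      _ = 2 * L * (a * (a - 1) + b * (b - 1) + 2 * (q * b)) := by rw [ea, eb]
  rw [h3]
  have h4 : (p ^ (s * (s - 1) / 2)) ^ (4 * L) = (p ^ (2 * L)) ^ (s * (s - 1)) := by
    rw [← pow_mul, ← pow_mul]
    congr 1
    calc s * (s - 1) / 2 * (4 * L) = 2 * L * (2 * (s * (s - 1) / 2)) := by ring
      _ = 2 * L * (s * (s - 1)) := by rw [es]
  rw [h4]
  have h5 := exp_ineq L q hL hq
  have hss : s * (s - 1) ≠ 0 := by
    apply Nat.mul_ne_zero <;> omega
  calc (s.factorial * 2 ^ b) ^ (4 * L) * X ^ (2 * L * (a * (a - 1) + b * (b - 1) + 2 * (q * b)))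
      ≤ X ^ (2 * L * s) * X ^ (2 * L * (a * (a - 1) + b * (b - 1) + 2 * (q * b))) :=
        Nat.mul_le_mul_right _ h2
    _ = X ^ (2 * L * s + 2 * L * (a * (a - 1) + b * (b - 1) + 2 * (q * b))) := by rw [pow_add]
    _ ≤ X ^ ((L + 2) * (s * (s - 1))) := Nat.pow_le_pow_right hX h5
    _ = (X ^ (L + 2)) ^ (s * (s - 1)) := by rw [pow_mul]
    _ < (p ^ (2 * L)) ^ (s * (s - 1)) := Nat.pow_lt_pow_left hp hss

end Pool.Agent.Helper30.Bin
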