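import Mathlib
import Pool.Agent.Helper30.Bin.Size
import Pool.Agent.Helper30.Bin.LinAlg
import Pool.Agent.Helper30.Bin.NoFactor

set_option autoImplicit false

/-!
The number of solutions of k! (m)_l = l! (n)_k with n ≤ X in one nonsingular residue class
modulo p is at most 2 L k.
-/

namespace Pool.Agent.Helper30.Bin

open Polynomial Matrix

theorem class_bound (k l L q X p : ℕ) (hl : 2 ≤ l) (hlk : l < k) (hL : 2 ≤ L)
    (hq : 2 ≤ q) (hlq : l * q ≤ 2 * k) (hX : 1 ≤ X)
    (hsX : (2 * ((2 * L - 1) * q)) ^ 2 ≤ X) (hp : p.Prime) (hpX : X ^ (L + 2) < p ^ (2 * L))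
    (x0 y0 : ℤ)
    (hns : ¬ (p : ℤ) ∣ (derivative (C (k.factorial : ℤ) * descPochhammer ℤ l)).eval y0)
    (S : Finset ℕ) (m : ℕ → ℕ) (hSX : ∀ n ∈ S, n ≤ X) (hm : ∀ n ∈ S, m n ≤ 2 * X ^ q)
    (hx : ∀ n ∈ S, (p : ℤ) ∣ (n : ℤ) - x0) (hy : ∀ n ∈ S, (p : ℤ) ∣ (m n : ℤ) - y0)
    (hS : ∀ n ∈ S, k.factorial * (m n).descFactorial l = l.factorial * n.descFactorial k) :
    S.card ≤ 2 * L * k := by
  classical
  -- the inverse of the derivative
  have hcop : IsCoprime (p : ℤ)
      ((derivative (C (k.factorial : ℤ) * descPochhammer ℤ l)).eval y0) :=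
    (Nat.prime_iff_prime_int.1 hp).coprime_iff_not_dvd.2 hns
  obtain ⟨u, v, huv⟩ := hcop
  have hv : (p : ℤ) ∣ v * (derivative (C (k.factorial : ℤ) * descPochhammer ℤ l)).eval y0 - 1 :=
    ⟨-u, by linarith⟩
  set a := L * q with ha
  set b := (L - 1) * q with hb
  let P : S → ℤ × ℤ := fun n => (((n : ℕ) : ℤ), ((m n : ℕ) : ℤ))
  have hdet : ∀ f : Fin a ⊕ Fin b → S, (monMat a b (fun r => P (f r))).det = 0 := by
    intro f
    have hdvd := pow_dvd_det_monMat (C (l.factorial : ℤ) * descPochhammer ℤ k)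
      (C (k.factorial : ℤ) * descPochhammer ℤ l) (p : ℤ) x0 y0 v hv a b (fun r => P (f r))
      (fun r => hx _ (f r).2) (fun r => hy _ (f r).2) (by
        intro r
        simp only [P, eval_mul, eval_C]
        rw [descPochhammer_eval_eq_descFactorial, descPochhammer_eval_eq_descFactorial]
        exact_mod_cast hS _ (f r).2)
    have habs := abs_det_monMat_le a b (X : ℤ) (2 * (X : ℤ) ^ q) (fun r => P (f r))
      (fun r => by simp only [P]; positivity) (fun r => by
        simp only [P]; exact_mod_cast hSX _ (f r).2)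
      (fun r => by simp only [P]; positivity) (fun r => by
        simp only [P]; exact_mod_cast hm _ (f r).2)
    have hsz := size_ineq L q X p hL hq hX hsX hpX
    rw [← ha, ← hb] at hsz
    apply Int.eq_zero_of_abs_lt_dvd hdvd
    refine lt_of_le_of_lt habs ?_
    exact_mod_cast hsz
  obtain ⟨A, B, hAB, hA, hB, hrel⟩ := exists_polys a b P hdet
  have hne := resPoly_ne_zero k l hl hlk A B hAB
  have hdeg := resPoly_natDegree_le k l q L hlq (by omega) A B
    (natDegree_le_of_degree_le hA.le) (natDegree_le_of_degree_le hB.le)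
  have hroot : ∀ n ∈ S, (resPoly k l A B).eval (n : ℚ) = 0 := by
    intro n hn
    apply resPoly_eval k l A B (n : ℚ) (m n : ℚ)
    · exact_mod_cast hrel ⟨n, hn⟩
    · rw [descPochhammer_eval_eq_descFactorial, descPochhammer_eval_eq_descFactorial]
      exact_mod_cast (hS n hn).symm
  have hsub : (S.image (fun n : ℕ => (n : ℚ))) ⊆ (resPoly k l A B).roots.toFinset := by
    intro r hr
    rw [Finset.mem_image] at hr
    obtain ⟨n, hn, rfl⟩ := hr
    rw [Multiset.mem_toFinset, mem_roots hne]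
    exact hroot n hn
  calc S.card = (S.image (fun n : ℕ => (n : ℚ))).card :=
        (Finset.card_image_of_injective _ Nat.cast_injective).symm
    _ ≤ (resPoly k l A B).roots.toFinset.card := Finset.card_le_card hsub
    _ ≤ Multiset.card (resPoly k l A B).roots := Multiset.toFinset_card_le _
    _ ≤ (resPoly k l A B).natDegree := card_roots' _
    _ ≤ 2 * L * k := hdeg

end Pool.Agent.Helper30.Bin
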