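import Mathlib
import Pool.Agent.Helper30.Bin.ClassBound

set_option autoImplicit false

/-!
The number of n ≤ X with C(n,k) = C(m,l) for some m ≥ 2 l, for 2 ≤ l < k.
-/

namespace Pool.Agent.Helper30.Bin

open Polynomial

theorem m_le (k l q X n m : ℕ) (hl : 1 ≤ l) (hlk : l < k) (hkq : k ≤ l * q) (hX : 1 ≤ X)
    (hn : n ≤ X) (hm : 2 * l ≤ m) (h : n.choose k = m.choose l) : m ≤ 2 * X ^ q := by
  have h1 : (m + 1 - l) ^ l ≤ m.descFactorial l := Nat.pow_sub_le_descFactorial m l
  have h2 : m.descFactorial l ≤ X ^ k := by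
    rw [Nat.descFactorial_eq_factorial_mul_choose, ← h]
    calc l.factorial * n.choose k ≤ k.factorial * n.choose k :=
          Nat.mul_le_mul_right _ (Nat.factorial_le hlk.le)
      _ = n.descFactorial k := (Nat.descFactorial_eq_factorial_mul_choose n k).symm
      _ ≤ n ^ k := Nat.descFactorial_le_pow n k
      _ ≤ X ^ k := Nat.pow_le_pow_left hn k
  have h3 : (m + 1 - l) ^ l ≤ (X ^ q) ^ l := by
    calc (m + 1 - l) ^ l ≤ X ^ k := le_trans h1 h2
      _ ≤ X ^ (l * q) := Nat.pow_le_pow_right hX hkq
      _ = (X ^ q) ^ l := by rw [← pow_mul, mul_comm]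
  have h4 : m + 1 - l ≤ X ^ q := (Nat.pow_le_pow_iff_left (by omega)).1 h3
  omega

theorem choose_eq_desc (k l n m : ℕ) (h : n.choose k = m.choose l) :
    k.factorial * m.descFactorial l = l.factorial * n.descFactorial k := by
  rw [Nat.descFactorial_eq_factorial_mul_choose, Nat.descFactorial_eq_factorial_mul_choose, h]
  ring

/-- reduction modulo p of c (x)_d. -/
theorem red_natDegree (c d p : ℕ) (hp : p.Prime) (hc : c < p) :
    ((C (c.factorial : ℤ) * descPochhammer ℤ d).map (Int.castRingHom (ZMod p))).natDegree = d := by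
  have : Fact p.Prime := ⟨hp⟩
  have hc0 : ((c.factorial : ℤ) : ZMod p) ≠ 0 := by
    intro h
    have h2 : ((c.factorial : ℕ) : ZMod p) = 0 := by exact_mod_cast h
    rw [ZMod.natCast_eq_zero_iff, hp.dvd_factorial] at h2
    omega
  rw [Polynomial.map_mul, map_C, descPochhammer_map]
  simp only [eq_intCast]
  rw [natDegree_C_mul hc0, descPochhammer_natDegree]

theorem red_derivative_ne_zero (c d p : ℕ) (hp : p.Prime) (hc : c < p) (hd : 1 ≤ d)
    (hdp : d < p) :
    derivative ((C (c.factorial : ℤ) * descPochhammer ℤ d).map (Int.castRingHom (ZMod p))) ≠ 0 := by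
  have : Fact p.Prime := ⟨hp⟩
  intro h0
  have hdeg := red_natDegree c d p hp hc
  set F := (C (c.factorial : ℤ) * descPochhammer ℤ d).map (Int.castRingHom (ZMod p))
  have hF : F ≠ 0 := by
    intro h
    rw [h, natDegree_zero] at hdeg
    omega
  have h1 : F.coeff d ≠ 0 := by
    rw [← hdeg]
    exact leadingCoeff_ne_zero.2 hF
  have h2 := congrArg (fun g => g.coeff (d - 1)) h0
  simp only [coeff_derivative, coeff_zero] at h2
  have e : d - 1 + 1 = d := by omega
  rw [e] at h2
  rcases mul_eq_zero.1 h2 with h3 | h3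
  · exact h1 h3
  · have h4 : ((d : ℕ) : ZMod p) = 0 := by
      rw [← h3]
      have : ((d - 1 : ℕ) : ZMod p) + 1 = (((d - 1) + 1 : ℕ) : ZMod p) := by push_cast; rfl
      rw [this, e]
    rw [ZMod.natCast_eq_zero_iff] at h4
    have := Nat.le_of_dvd (by omega) h4
    omega

theorem card_roots_sub_C_le {K : Type*} [Field K] [DecidableEq K] (F : K[X]) (d : ℕ)
    (hF : F.natDegree = d) (c : K) : (F - C c).roots.toFinset.card ≤ d := by
  refine le_trans (Multiset.toFinset_card_le _) (le_trans (card_roots' _) ?_)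
  rw [natDegree_sub_C, hF]

theorem cast_eval (p : ℕ) (F : ℤ[X]) (n : ℕ) : ((F.eval (n : ℤ) : ℤ) : ZMod p) =
    (F.map (Int.castRingHom (ZMod p))).eval (n : ZMod p) := by
  rw [eval_natCast_map]
  rfl

theorem card_residue_le (p X : ℕ) (S : Finset ℕ) (hS : ∀ n ∈ S, n ≤ X)
    (r : ZMod p) : (S.filter (fun n : ℕ => (n : ZMod p) = r)).card ≤ X / p + 1 := by
  have h1 : (S.filter (fun n : ℕ => (n : ZMod p) = r)).card ≤ (Finset.range (X / p + 1)).card := by
    apply Finset.card_le_card_of_injOn (fun n => n / p)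
    · intro n hn
      simp only [Finset.coe_filter, Set.mem_ofPred_eq] at hn
      simp only [Finset.coe_range, Set.mem_Iio]
      have := Nat.div_le_div_right (c := p) (hS n hn.1)
      omega
    · intro a ha b hb hab
      simp only [Finset.coe_filter, Set.mem_ofPred_eq] at ha hb
      have h2 : (a : ZMod p) = (b : ZMod p) := by rw [ha.2, hb.2]
      rw [ZMod.natCast_eq_natCast_iff] at h2
      have h3 : a % p = b % p := h2
      rw [← Nat.div_add_mod a p, ← Nat.div_add_mod b p, h3]
      simp only at hab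
      rw [hab]
  simpa using h1

theorem sol_card_le (k l L q X p : ℕ) (hl : 2 ≤ l) (hlk : l < k) (hL : 2 ≤ L)
    (hq : 2 ≤ q) (hlq : l * q ≤ 2 * k) (hkq : k ≤ l * q) (hX : 1 ≤ X)
    (hsX : (2 * ((2 * L - 1) * q)) ^ 2 ≤ X) (hp : p.Prime) (hpX : X ^ (L + 2) < p ^ (2 * L))
    (hkp : k < p) (S : Finset ℕ) (hSX : ∀ n ∈ S, n ≤ X)
    (hS : ∀ n ∈ S, ∃ m, 2 * l ≤ m ∧ n.choose k = m.choose l) :
    S.card ≤ 2 * L * k * (p * l) + (X / p + 1) * (l * k) := by
  classical
  have : Fact p.Prime := ⟨hp⟩
  choose! m hm using hS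
  set H : ℤ[X] := C (k.factorial : ℤ) * descPochhammer ℤ l with hH
  set G : ℤ[X] := C (l.factorial : ℤ) * descPochhammer ℤ k with hG
  set Hb := H.map (Int.castRingHom (ZMod p)) with hHb
  set Gb := G.map (Int.castRingHom (ZMod p)) with hGb
  have hHdeg : Hb.natDegree = l := red_natDegree k l p hp hkp
  have hGdeg : Gb.natDegree = k := red_natDegree l k p hp (by omega)
  have hH' : derivative Hb ≠ 0 := red_derivative_ne_zero k l p hp hkp (by omega) (by omega)
  have hH'deg : (derivative Hb).natDegree ≤ l :=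
    le_trans (natDegree_derivative_le Hb) (by omega)
  have hpt : ∀ n ∈ S, Hb.eval ((m n : ℕ) : ZMod p) = Gb.eval ((n : ℕ) : ZMod p) := by
    intro n hn
    have h1 : H.eval ((m n : ℕ) : ℤ) = G.eval ((n : ℕ) : ℤ) := by
      simp only [hH, hG, eval_mul, eval_C]
      rw [descPochhammer_eval_eq_descFactorial, descPochhammer_eval_eq_descFactorial]
      exact_mod_cast choose_eq_desc k l n (m n) (hm n hn).2
    rw [hHb, hGb, ← cast_eval, ← cast_eval, h1]
  have hder : ∀ n : ℕ, (((derivative H).eval ((m n : ℕ) : ℤ) : ℤ) : ZMod p) =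
      (derivative Hb).eval ((m n : ℕ) : ZMod p) := by
    intro n
    rw [hHb, derivative_map, ← cast_eval]
  -- nonsingular part
  set S1 := S.filter (fun n => ¬ (p : ℤ) ∣ (derivative H).eval ((m n : ℕ) : ℤ)) with hS1
  set S2 := S.filter (fun n => (p : ℤ) ∣ (derivative H).eval ((m n : ℕ) : ℤ)) with hS2
  have hcard : S.card = S2.card + S1.card := by
    rw [hS1, hS2]
    exact (Finset.card_filter_add_card_filter_not _).symm
  have b1 : S1.card ≤ 2 * L * k * (p * l) := by
    have h1 := Finset.card_le_mul_card_image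
      (f := fun n : ℕ => (((n : ℕ) : ZMod p), ((m n : ℕ) : ZMod p))) S1 (2 * L * k) (by
      intro c hc
      rw [Finset.mem_image] at hc
      obtain ⟨n0, hn0, rfl⟩ := hc
      have hn0' := (Finset.mem_filter.1 hn0)
      apply class_bound k l L q X p hl hlk hL hq hlq hX hsX hp hpX (n0 : ℤ) ((m n0 : ℕ) : ℤ)
        hn0'.2 _ m
      · intro n hn
        exact hSX n (Finset.mem_filter.1 (Finset.mem_filter.1 hn).1).1
      · intro n hn
        have hnS := (Finset.mem_filter.1 (Finset.mem_filter.1 hn).1).1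
        exact m_le k l q X n (m n) (by omega) hlk hkq hX (hSX n hnS) (hm n hnS).1 (hm n hnS).2
      · intro n hn
        have h := (Finset.mem_filter.1 hn).2
        simp only [Prod.mk.injEq] at h
        rw [← ZMod.intCast_zmod_eq_zero_iff_dvd]
        push_cast
        rw [h.1, sub_self]
      · intro n hn
        have h := (Finset.mem_filter.1 hn).2
        simp only [Prod.mk.injEq] at h
        rw [← ZMod.intCast_zmod_eq_zero_iff_dvd]
        push_cast
        rw [h.2, sub_self]
      · intro n hn
        have hnS := (Finset.mem_filter.1 (Finset.mem_filter.1 hn).1).1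
        exact choose_eq_desc k l n (m n) (hm n hnS).2)
    refine le_trans h1 (Nat.mul_le_mul_left _ ?_)
    have hsub : S1.image (fun n : ℕ => (((n : ℕ) : ZMod p), ((m n : ℕ) : ZMod p))) ⊆
        (Finset.univ : Finset (ZMod p)).biUnion
          (fun x => ((Hb - C (Gb.eval x)).roots.toFinset).image (fun y => (x, y))) := by
      intro c hc
      rw [Finset.mem_image] at hc
      obtain ⟨n, hn, rfl⟩ := hc
      have hnS := (Finset.mem_filter.1 hn).1
      rw [Finset.mem_biUnion]
      refine ⟨(n : ZMod p), Finset.mem_univ _, ?_⟩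
      rw [Finset.mem_image]
      refine ⟨((m n : ℕ) : ZMod p), ?_, rfl⟩
      rw [Multiset.mem_toFinset, mem_roots]
      · rw [IsRoot.def, eval_sub, eval_C, hpt n hnS, sub_self]
      · intro h0
        have := natDegree_sub_C (p := Hb) (a := Gb.eval (n : ZMod p))
        rw [h0, natDegree_zero, hHdeg] at this
        omega
    refine le_trans (Finset.card_le_card hsub) (le_trans Finset.card_biUnion_le ?_)
    have h2 : ∀ x ∈ (Finset.univ : Finset (ZMod p)),
        (((Hb - C (Gb.eval x)).roots.toFinset).image (fun y => (x, y))).card ≤ l := by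
      intro x _
      exact le_trans Finset.card_image_le (card_roots_sub_C_le Hb l hHdeg _)
    refine le_trans (Finset.sum_le_sum h2) ?_
    rw [Finset.sum_const, Finset.card_univ, ZMod.card, smul_eq_mul]
  have b2 : S2.card ≤ (X / p + 1) * (l * k) := by
    have h1 := Finset.card_le_mul_card_image
      (f := fun n : ℕ => ((n : ℕ) : ZMod p)) S2 (X / p + 1) (by
      intro c _
      exact card_residue_le p X S2 (fun n hn => hSX n (Finset.mem_filter.1 hn).1) c)
    refine le_trans h1 (Nat.mul_le_mul_left _ ?_)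
    have hsub : S2.image (fun n : ℕ => ((n : ℕ) : ZMod p)) ⊆
        ((derivative Hb).roots.toFinset).biUnion
          (fun y => (Gb - C (Hb.eval y)).roots.toFinset) := by
      intro c hc
      rw [Finset.mem_image] at hc
      obtain ⟨n, hn, rfl⟩ := hc
      have hn' := (Finset.mem_filter.1 hn)
      rw [Finset.mem_biUnion]
      refine ⟨((m n : ℕ) : ZMod p), ?_, ?_⟩
      · rw [Multiset.mem_toFinset, mem_roots hH', IsRoot.def, ← hder n,
          ZMod.intCast_zmod_eq_zero_iff_dvd]
        exact hn'.2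
      · rw [Multiset.mem_toFinset, mem_roots]
        · rw [IsRoot.def, eval_sub, eval_C, hpt n hn'.1, sub_self]
        · intro h0
          have := natDegree_sub_C (p := Gb) (a := Hb.eval ((m n : ℕ) : ZMod p))
          rw [h0, natDegree_zero, hGdeg] at this
          omega
    refine le_trans (Finset.card_le_card hsub) (le_trans Finset.card_biUnion_le ?_)
    have h2 : ∀ y ∈ (derivative Hb).roots.toFinset,
        ((Gb - C (Hb.eval y)).roots.toFinset).card ≤ k := by
      intro y _
      exact card_roots_sub_C_le Gb k hGdeg _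
    refine le_trans (Finset.sum_le_sum h2) ?_
    rw [Finset.sum_const, smul_eq_mul]
    apply Nat.mul_le_mul_right
    exact le_trans (Multiset.toFinset_card_le _) (le_trans (card_roots' _) hH'deg)
  rw [hcard]
  omega

end Pool.Agent.Helper30.Bin
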