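import Mathlib
import Pool.Agent.Helper30.Bin.Count

set_option autoImplicit false

/-!
The number of n ≤ X with C(n,k) = C(m,l) for some m ≥ 2 l, for 2 ≤ l < k, is at most
(8 L + 2) k l X^(1/2 + 1/L).
-/

namespace Pool.Agent.Helper30.Bin

theorem sol_bound (k l L X : ℕ) (hl : 2 ≤ l) (hlk : l < k) (hL : 2 ≤ L) (hX : 1 ≤ X)
    (hkX : (4 * L * k) ^ 2 ≤ X) (S : Finset ℕ) (hSX : ∀ n ∈ S, n ≤ X)
    (hS : ∀ n ∈ S, ∃ m, 2 * l ≤ m ∧ n.choose k = m.choose l) :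
    (S.card : ℝ) ≤ (8 * L + 2) * (k * l) * (X : ℝ) ^ ((1 : ℝ) / 2 + 1 / L) := by
  set β : ℝ := (1 : ℝ) / 2 + 1 / L with hβ
  have hLpos : (0 : ℝ) < L := by exact_mod_cast (by omega : 0 < L)
  have hX1 : (1 : ℝ) ≤ X := by exact_mod_cast hX
  have hX0 : (0 : ℝ) < X := by linarith
  have hβ0 : 0 < β := by positivity
  have hβ2 : (1 : ℝ) / 2 ≤ β := by
    rw [hβ]; have : (0 : ℝ) < 1 / L := by positivity
    linarith
  have hXβ1 : 1 ≤ (X : ℝ) ^ β := Real.one_le_rpow hX1 hβ0.le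
  set Z : ℕ := ⌈(X : ℝ) ^ β⌉₊ with hZ
  have hZ1 : (X : ℝ) ^ β ≤ Z := Nat.le_ceil _
  have hZ2 : (Z : ℝ) ≤ 2 * (X : ℝ) ^ β := by
    have := Nat.ceil_lt_add_one (by positivity : (0 : ℝ) ≤ (X : ℝ) ^ β)
    rw [← hZ] at this
    linarith
  have hZ0 : Z ≠ 0 := by
    intro h
    rw [h] at hZ1
    simp only [Nat.cast_zero] at hZ1
    linarith
  obtain ⟨p, hp, hZp, hp2⟩ := Nat.exists_prime_lt_and_le_two_mul Z hZ0
  -- p^(2L) > X^(L+2)
  have hpX : X ^ (L + 2) < p ^ (2 * L) := by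
    have h1 : ((X : ℝ) ^ β) ^ (2 * L) = (X : ℝ) ^ (L + 2) := by
      rw [← Real.rpow_natCast, ← Real.rpow_mul hX0.le, ← Real.rpow_natCast]
      congr 1
      rw [hβ]
      push_cast
      field_simp
    have h2 : (X : ℝ) ^ (L + 2) < (p : ℝ) ^ (2 * L) := by
      rw [← h1]
      apply pow_lt_pow_left₀ _ (by positivity) (by omega)
      refine lt_of_le_of_lt hZ1 ?_
      exact_mod_cast hZp
    exact_mod_cast h2
  -- k < p
  have hkp : k < p := by
    have h1 : k ^ 2 ≤ X := by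
      refine le_trans (Nat.pow_le_pow_left ?_ 2) hkX
      calc k = 1 * k := (one_mul k).symm
        _ ≤ 4 * L * k := Nat.mul_le_mul_right k (by omega)
    have h2 : (k : ℝ) ≤ (X : ℝ) ^ ((1 : ℝ) / 2) := by
      rw [← Real.sqrt_eq_rpow]
      apply Real.le_sqrt_of_sq_le
      exact_mod_cast h1
    have h3 : (k : ℝ) ≤ Z := by
      refine le_trans h2 (le_trans ?_ hZ1)
      exact Real.rpow_le_rpow_of_exponent_le hX1 hβ2
    have h4 : k ≤ Z := by exact_mod_cast h3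
    omega
  -- q
  set q : ℕ := (k + l - 1) / l with hq
  have hlq1 : l * q ≤ k + l - 1 := by
    rw [hq]; exact Nat.mul_div_le _ _
  have hkq : k ≤ l * q := by
    have := Nat.div_add_mod (k + l - 1) l
    have h2 := Nat.mod_lt (k + l - 1) (by omega : 0 < l)
    rw [← hq] at this
    omega
  have hq2 : 2 ≤ q := by
    by_contra h
    have : q ≤ 1 := by omega
    have h2 : l * q ≤ l * 1 := Nat.mul_le_mul_left _ this
    omega
  have hlq : l * q ≤ 2 * k := by omega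
  have hqk : q ≤ k := by
    have : 2 * q ≤ l * q := Nat.mul_le_mul_right _ hl
    omega
  have hsX : (2 * ((2 * L - 1) * q)) ^ 2 ≤ X := by
    refine le_trans (Nat.pow_le_pow_left ?_ 2) hkX
    calc 2 * ((2 * L - 1) * q) ≤ 2 * ((2 * L) * k) := by
          apply Nat.mul_le_mul_left
          exact Nat.mul_le_mul (Nat.sub_le _ _) hqk
      _ = 4 * L * k := by ring
  have hmain := sol_card_le k l L q X p hl hlk hL hq2 hlq hkq hX hsX hp hpX hkp S hSX hS
  have hmain' : (S.card : ℝ) ≤ 2 * L * k * (p * l) + ((X / p : ℕ) + 1) * (l * k) := by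
    exact_mod_cast hmain
  have hp0 : (0 : ℝ) < p := by exact_mod_cast hp.pos
  have hp3 : (p : ℝ) ≤ 4 * (X : ℝ) ^ β := by
    have : (p : ℝ) ≤ 2 * Z := by exact_mod_cast hp2
    linarith
  have hXp : ((X / p : ℕ) : ℝ) ≤ (X : ℝ) ^ β := by
    refine le_trans Nat.cast_div_le ?_
    rw [div_le_iff₀ hp0]
    have h1 : (X : ℝ) ^ β ≤ p := le_trans hZ1 (by exact_mod_cast hZp.le)
    calc (X : ℝ) = (X : ℝ) ^ ((1 : ℝ) / 2) * (X : ℝ) ^ ((1 : ℝ) / 2) := by
          rw [← Real.rpow_add hX0]; norm_num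
      _ ≤ (X : ℝ) ^ β * (X : ℝ) ^ β := by
          have := Real.rpow_le_rpow_of_exponent_le hX1 hβ2
          exact mul_le_mul this this (by positivity) (by positivity)
      _ ≤ (X : ℝ) ^ β * p := mul_le_mul_of_nonneg_left h1 (by positivity)
  have hkl : (0 : ℝ) ≤ (k : ℝ) * l := by positivity
  calc (S.card : ℝ) ≤ 2 * L * k * (p * l) + ((X / p : ℕ) + 1) * (l * k) := hmain'
    _ ≤ 2 * L * k * ((4 * (X : ℝ) ^ β) * l) + ((X : ℝ) ^ β + (X : ℝ) ^ β) * (l * k) := by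
        gcongr
    _ = (8 * L + 2) * (k * l) * (X : ℝ) ^ β := by ring

end Pool.Agent.Helper30.Bin
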