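import Mathlib
import Pool.Agent.Helper30.Bin.SolBound

set_option autoImplicit false

/-!
Elementary facts on repeated binomial coefficients and the count of bad rows.
-/

namespace Pool.Agent.Helper30.Bin

/-- The multiplicity of a: the number of n such that a = C(n,k) for some 1 ≤ k ≤ n/2. -/
noncomputable def mult (a : ℕ) : ℕ :=
  {n : ℕ | ∃ k ≥ 1, 2 * k ≤ n ∧ n.choose k = a}.ncard

theorem choose_lt_succ (n r : ℕ) (h : 2 * (r + 1) ≤ n) : n.choose r < n.choose (r + 1) := by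
  have h1 := Nat.choose_succ_right_eq n r
  have h2 : 0 < n.choose r := Nat.choose_pos (by omega)
  have h3 : r + 1 < n - r := by omega
  by_contra hcon
  push Not at hcon
  have h4 : n.choose (r + 1) * (r + 1) ≤ n.choose r * (r + 1) := Nat.mul_le_mul_right _ hcon
  have h5 : n.choose r * (r + 1) < n.choose r * (n - r) := Nat.mul_lt_mul_of_pos_left h3 h2
  omega

theorem choose_lt (n r s : ℕ) (hrs : r < s) (hs : 2 * s ≤ n) : n.choose r < n.choose s := by
  induction s, hrs using Nat.le_induction with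
  | base => exact choose_lt_succ n r hs
  | succ s _ ih => exact lt_trans (ih (by omega)) (choose_lt_succ n s hs)

theorem choose_lt_left (n m k : ℕ) (hk : 1 ≤ k) (hkn : k ≤ n) (hnm : n < m) :
    n.choose k < m.choose k := by
  refine lt_of_lt_of_le ?_ (Nat.choose_le_choose k (show n + 1 ≤ m from hnm))
  obtain ⟨j, rfl⟩ : ∃ j, k = j + 1 := ⟨k - 1, by omega⟩
  rw [Nat.choose_succ_succ']
  have : 0 < n.choose j := Nat.choose_pos (by omega)
  omega

theorem choose_inj_left (n m k : ℕ) (hk : 1 ≤ k) (hkn : k ≤ n) (hkm : k ≤ m)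
    (h : n.choose k = m.choose k) : n = m := by
  rcases lt_trichotomy n m with h1 | h1 | h1
  · have := choose_lt_left n m k hk hkn h1; omega
  · exact h1
  · have := choose_lt_left m n k hk hkm h1; omega

theorem exists_third (n k : ℕ) (hk : 2 ≤ k) (hkn : 2 * k ≤ n) (h : mult (n.choose k) ≠ 2) :
    ∃ m l, 2 ≤ l ∧ 2 * l ≤ m ∧ m.choose l = n.choose k ∧ m ≠ n := by
  by_contra hcon
  push Not at hcon
  apply h
  have h1 : n < n.choose k := by
    have := choose_lt n 1 k (by omega) hkn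
    rwa [Nat.choose_one_right] at this
  have hset : {m : ℕ | ∃ l ≥ 1, 2 * l ≤ m ∧ m.choose l = n.choose k} = {n.choose k, n} := by
    ext m
    simp only [Set.mem_ofPred_eq, Set.mem_insert_iff, Set.mem_singleton_iff]
    constructor
    · rintro ⟨l, hl1, hl2, hl3⟩
      rcases Nat.lt_or_ge l 2 with h2 | h2
      · left
        have : l = 1 := by omega
        subst this
        rwa [Nat.choose_one_right] at hl3
      · right
        exact hcon m l h2 hl2 hl3
    · rintro (h2 | h2)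
      · refine ⟨1, le_refl _, by omega, ?_⟩
        rw [Nat.choose_one_right, h2]
      · exact ⟨k, by omega, by omega, by rw [h2]⟩
  rw [mult, hset]
  exact Set.ncard_pair (by omega)

theorem two_pow_le_choose (l : ℕ) : 2 ^ l ≤ (2 * l).choose l := by
  change 2 ^ l ≤ Nat.centralBinom l
  induction l with
  | zero => simp
  | succ l ih =>
    have h1 := Nat.succ_mul_centralBinom_succ l
    have h2 : (l + 1) * 2 ^ (l + 1) ≤ (l + 1) * Nat.centralBinom (l + 1) := by
      rw [h1, pow_succ]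
      calc (l + 1) * (2 ^ l * 2) = 2 * (l + 1) * 2 ^ l := by ring
        _ ≤ 2 * (2 * l + 1) * Nat.centralBinom l := Nat.mul_le_mul (by omega) ih
    exact Nat.le_of_mul_le_mul_left h2 (by omega)

theorem l_le (n k m l X K : ℕ) (hkK : k ≤ K) (hn : n ≤ X) (hX : 1 ≤ X)
    (hl : 2 * l ≤ m) (h : m.choose l = n.choose k) : l ≤ K * (Nat.log 2 X + 1) := by
  have h1 : 2 ^ l ≤ m.choose l := le_trans (two_pow_le_choose l) (Nat.choose_le_choose l hl)
  have h2 : n.choose k ≤ X ^ K := by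
    calc n.choose k ≤ n ^ k := Nat.choose_le_pow n k
      _ ≤ X ^ k := Nat.pow_le_pow_left hn k
      _ ≤ X ^ K := Nat.pow_le_pow_right hX hkK
  have h3 : X ^ K ≤ 2 ^ (K * (Nat.log 2 X + 1)) := by
    rw [mul_comm, pow_mul]
    exact Nat.pow_le_pow_left (Nat.lt_pow_succ_log_self (by norm_num) X).le K
  have h4 : 2 ^ l ≤ 2 ^ (K * (Nat.log 2 X + 1)) := by
    rw [h] at h1
    exact le_trans h1 (le_trans h2 h3)
  exact (Nat.pow_le_pow_iff_right (by norm_num)).1 h4

open Classical in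
/-- n ≤ X with C(n,k) = C(m,l) for some m ≥ 2 l. -/
noncomputable def sol (k l X : ℕ) : Finset ℕ :=
  (Finset.range (X + 1)).filter (fun n => ∃ m, 2 * l ≤ m ∧ n.choose k = m.choose l)

open Classical in
/-- n ≤ X with C(n,k) = C(m,l) for some m ≤ X, m ≥ 2 l. -/
noncomputable def inv (k l X : ℕ) : Finset ℕ :=
  (Finset.range (X + 1)).filter (fun n => 2 * k ≤ n ∧
    ∃ m, m ≤ X ∧ m.choose l = n.choose k)

theorem inv_card_le (k l X : ℕ) (hk : 1 ≤ k) : (inv k l X).card ≤ (sol l k X).card := by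
  classical
  have h : ∀ n ∈ inv k l X, ∃ m, m ≤ X ∧ m.choose l = n.choose k := by
    intro n hn
    rw [inv, Finset.mem_filter] at hn
    exact hn.2.2
  choose! f hf using h
  apply Finset.card_le_card_of_injOn f
  · intro n hn
    have hn' := hn
    rw [Finset.mem_coe, inv, Finset.mem_filter] at hn'
    have h1 := hf n hn
    rw [Finset.mem_coe, sol, Finset.mem_filter, Finset.mem_range]
    exact ⟨by omega, n, hn'.2.1, h1.2⟩
  · intro a ha b hb hab
    have ha' := ha
    have hb' := hb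
    rw [Finset.mem_coe, inv, Finset.mem_filter] at ha' hb'
    have h1 := (hf a ha).2
    have h2 := (hf b hb).2
    rw [hab] at h1
    exact choose_inj_left a b k hk (by omega) (by omega) (h1.symm.trans h2)

/-- The bad rows. -/
def bad (X K : ℕ) : Set ℕ :=
  {n : ℕ | n ≤ X ∧ ∃ k, 2 ≤ k ∧ k ≤ K ∧ 2 * k ≤ n ∧ mult (n.choose k) ≠ 2}

theorem bad_finite (X K : ℕ) : (bad X K).Finite :=
  (Set.finite_Iic X).subset (fun _ hn => hn.1)

theorem bad_ncard_le_self (X K : ℕ) : (bad X K).ncard ≤ X := by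
  have h : bad X K ⊆ ((Finset.Icc 1 X : Finset ℕ) : Set ℕ) := by
    intro n hn
    obtain ⟨h1, k, h2, h3, h4, h5⟩ := hn
    rw [Finset.mem_coe, Finset.mem_Icc]
    omega
  have := Set.ncard_le_ncard h (Finset.finite_toSet _)
  rw [Set.ncard_coe_finset] at this
  simpa using this

theorem bad_sub (X K : ℕ) (hX : 1 ≤ X) :
    bad X K ⊆ ((((Finset.range (K + 1)) ×ˢ (Finset.range (K * (Nat.log 2 X + 1) + 1))).biUnion
      (fun c => (if 2 ≤ c.2 ∧ c.2 < c.1 then sol c.1 c.2 X else ∅) ∪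
        (if 2 ≤ c.1 ∧ c.1 < c.2 then inv c.1 c.2 X else ∅)) : Finset ℕ) : Set ℕ) := by
  classical
  intro n hn
  obtain ⟨hnX, k, hk2, hkK, hkn, hmult⟩ := hn
  obtain ⟨m, l, hl2, hlm, heq, hmn⟩ := exists_third n k hk2 hkn hmult
  have hlM := l_le n k m l X K hkK hnX hX hlm heq
  have hlk : l ≠ k := by
    rintro rfl
    exact hmn (choose_inj_left m n l (by omega) (by omega) (by omega) heq)
  rw [Finset.mem_coe, Finset.mem_biUnion]
  refine ⟨(k, l), ?_, ?_⟩
  · rw [Finset.mem_product, Finset.mem_range, Finset.mem_range]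
    constructor <;> simp only <;> omega
  · rw [Finset.mem_union]
    rcases lt_or_gt_of_ne hlk with h | h
    · left
      rw [if_pos ⟨hl2, h⟩, sol, Finset.mem_filter, Finset.mem_range]
      exact ⟨by omega, m, hlm, heq.symm⟩
    · right
      have hmn2 : m < n := by
        by_contra hcon
        have h1 : n.choose k ≤ m.choose k := Nat.choose_le_choose k (by omega)
        have h2 := choose_lt m k l h hlm
        omega
      rw [if_pos ⟨hk2, h⟩, inv, Finset.mem_filter, Finset.mem_range]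
      exact ⟨by omega, hkn, m, by omega, heq⟩

theorem bad_card_le (X K L : ℕ) (hX : 1 ≤ X) (hK : 1 ≤ K) (hL : 2 ≤ L)
    (hM : (4 * L * (K * (Nat.log 2 X + 1))) ^ 2 ≤ X) :
    ((bad X K).ncard : ℝ) ≤ 8 * (8 * L + 2) * (K : ℝ) ^ 4 * ((Nat.log 2 X + 1 : ℕ) : ℝ) ^ 2 *
      (X : ℝ) ^ ((1 : ℝ) / 2 + 1 / L) := by
  classical
  set M : ℕ := K * (Nat.log 2 X + 1) with hMdef
  have hKM : K ≤ M := by
    rw [hMdef]; exact Nat.le_mul_of_pos_right K (by omega)
  set V : ℝ := (8 * L + 2) * ((K : ℝ) * M) * (X : ℝ) ^ ((1 : ℝ) / 2 + 1 / L) with hV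
  have hV0 : 0 ≤ V := by positivity
  have h1 := Set.ncard_le_ncard (bad_sub X K hX) (Finset.finite_toSet _)
  rw [Set.ncard_coe_finset] at h1
  have h2 := le_trans h1 Finset.card_biUnion_le
  -- bound for one index
  have hmono : ∀ k ≤ M, (4 * L * k) ^ 2 ≤ X := fun k hk =>
    le_trans (Nat.pow_le_pow_left (Nat.mul_le_mul_left _ hk) 2) hM
  have hsol : ∀ k l, 2 ≤ l → l < k → k ≤ M → (k : ℝ) * l ≤ (K : ℝ) * M →
      ((sol k l X).card : ℝ) ≤ V := by
    intro k l hl hlk hkM hkl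
    have h3 := sol_bound k l L X hl hlk hL hX (hmono k hkM) (sol k l X)
      (fun n hn => by rw [sol, Finset.mem_filter, Finset.mem_range] at hn; omega)
      (fun n hn => by rw [sol, Finset.mem_filter] at hn; exact hn.2)
    refine le_trans h3 ?_
    rw [hV]
    gcongr
  have hone : ∀ c ∈ (Finset.range (K + 1)) ×ˢ (Finset.range (M + 1)),
      ((((if 2 ≤ c.2 ∧ c.2 < c.1 then sol c.1 c.2 X else ∅) ∪
        (if 2 ≤ c.1 ∧ c.1 < c.2 then inv c.1 c.2 X else ∅) : Finset ℕ).card : ℕ) : ℝ) ≤ 2 * V := by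
    intro c hc
    rw [Finset.mem_product, Finset.mem_range, Finset.mem_range] at hc
    have hc1 : (c.1 : ℝ) ≤ K := by exact_mod_cast (by omega : c.1 ≤ K)
    have hc2 : (c.2 : ℝ) ≤ M := by exact_mod_cast (by omega : c.2 ≤ M)
    have hu := Finset.card_union_le (if 2 ≤ c.2 ∧ c.2 < c.1 then sol c.1 c.2 X else ∅)
      (if 2 ≤ c.1 ∧ c.1 < c.2 then inv c.1 c.2 X else ∅)
    have ha : (((if 2 ≤ c.2 ∧ c.2 < c.1 then sol c.1 c.2 X else ∅ : Finset ℕ).card : ℕ) : ℝ)
        ≤ V := by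
      split_ifs with h
      · apply hsol c.1 c.2 h.1 h.2 (by omega)
        exact mul_le_mul hc1 hc2 (by positivity) (by positivity)
      · simpa using hV0
    have hb : (((if 2 ≤ c.1 ∧ c.1 < c.2 then inv c.1 c.2 X else ∅ : Finset ℕ).card : ℕ) : ℝ)
        ≤ V := by
      split_ifs with h
      · have h3 : ((inv c.1 c.2 X).card : ℝ) ≤ ((sol c.2 c.1 X).card : ℝ) := by
          exact_mod_cast inv_card_le c.1 c.2 X (by omega)
        refine le_trans h3 ?_
        apply hsol c.2 c.1 h.1 h.2 (by omega)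
        rw [mul_comm]
        exact mul_le_mul hc1 hc2 (by positivity) (by positivity)
      · simpa using hV0
    have hu' : ((((if 2 ≤ c.2 ∧ c.2 < c.1 then sol c.1 c.2 X else ∅) ∪
        (if 2 ≤ c.1 ∧ c.1 < c.2 then inv c.1 c.2 X else ∅) : Finset ℕ).card : ℕ) : ℝ) ≤
        (((if 2 ≤ c.2 ∧ c.2 < c.1 then sol c.1 c.2 X else ∅ : Finset ℕ).card : ℕ) : ℝ) +
        (((if 2 ≤ c.1 ∧ c.1 < c.2 then inv c.1 c.2 X else ∅ : Finset ℕ).card : ℕ) : ℝ) := by
      exact_mod_cast hu
    linarith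
  have h3 : ((bad X K).ncard : ℝ) ≤
      ∑ c ∈ (Finset.range (K + 1)) ×ˢ (Finset.range (M + 1)), 2 * V := by
    refine le_trans ?_ (Finset.sum_le_sum hone)
    exact_mod_cast h2
  rw [Finset.sum_const, Finset.card_product, Finset.card_range, Finset.card_range,
    nsmul_eq_mul] at h3
  have hK1 : ((K + 1 : ℕ) : ℝ) ≤ 2 * K := by exact_mod_cast (by omega : K + 1 ≤ 2 * K)
  have hM1 : ((M + 1 : ℕ) : ℝ) ≤ 2 * M := by exact_mod_cast (by omega : M + 1 ≤ 2 * M)
  calc ((bad X K).ncard : ℝ) ≤ (((K + 1) * (M + 1) : ℕ) : ℝ) * (2 * V) := h3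
    _ = ((K + 1 : ℕ) : ℝ) * ((M + 1 : ℕ) : ℝ) * (2 * V) := by push_cast; ring
    _ ≤ (2 * K) * (2 * M) * (2 * V) := by gcongr
    _ = _ := by
        rw [hV, hMdef]
        push_cast
        ring

end Pool.Agent.Helper30.Bin
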